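import Pool.Agent.H34.VM.Base

set_option autoImplicit false

open Set

namespace H27.VM

variable {G : Type} [Group G]

theorem two_card_le [Finite G] {H : Subgroup G} (h : H ≠ ⊤) :
    2 * Nat.card H ≤ Nat.card G := by
  have h1 := H.card_mul_index
  have h2 : H.index ≠ 1 := fun h3 => h (Subgroup.index_eq_one.mp h3)
  have h3 : H.index ≠ 0 := H.index_ne_zero_of_finite
  have h4 : 2 ≤ H.index := by omega
  nlinarith

theorem ncard_subgroup (H : Subgroup G) :
    (H : Set G).ncard = Nat.card H := (Nat.card_coe_set_eq (H : Set G)).symm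

/-- An element inverted by more than half of the group is central of order at most two. -/
theorem central_of_inv [Finite G] (x : G) (S : Set G) (hS : ∀ g ∈ S, g⁻¹ * x * g = x⁻¹)
    (hc : Nat.card G < 2 * S.ncard) : (∀ g : G, g * x = x * g) ∧ x ^ 2 = 1 := by
  have hne : S.Nonempty := by
    rw [← Set.ncard_pos]
    omega
  obtain ⟨g₁, hg₁⟩ := hne
  have h1 : S.ncard ≤ Nat.card (Subgroup.centralizer {x}) := by
    rw [← ncard_subgroup]
    apply Set.ncard_le_ncard_of_injOn (fun g => g * g₁⁻¹)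
    · intro g hg
      rw [SetLike.mem_coe, Subgroup.mem_centralizer_singleton_iff]
      have e1 := hS g hg
      have e2 := hS g₁ hg₁
      have e3 : x * g = g * x⁻¹ := by
        rw [← e1]; group
      have e4 : x * g₁ = g₁ * x⁻¹ := by
        rw [← e2]; group
      have e5 : g₁⁻¹ * x = x⁻¹ * g₁⁻¹ := by
        rw [← e2]; group
      calc g * g₁⁻¹ * x = g * (g₁⁻¹ * x) := by group
        _ = g * x⁻¹ * g₁⁻¹ := by rw [e5]; group
        _ = x * (g * g₁⁻¹) := by rw [← e3]; group
    · intro a _ b _ hab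
      exact mul_right_cancel hab
  have h2 : Subgroup.centralizer {x} = ⊤ := by
    by_contra h3
    have := two_card_le h3
    omega
  have h3 : ∀ g : G, g * x = x * g := by
    intro g
    have : g ∈ Subgroup.centralizer {x} := by rw [h2]; trivial
    rw [Subgroup.mem_centralizer_singleton_iff] at this
    exact this
  refine ⟨h3, ?_⟩
  have e1 := hS g₁ hg₁
  rw [mul_assoc, ← h3 g₁, inv_mul_cancel_left] at e1
  rw [pow_two]
  nth_rw 2 [e1]
  simp

theorem inv_of_sq {g x h : G} (h1 : g ^ 2 = h) (h2 : (g * x) ^ 2 = h) : g⁻¹ * x * g = x⁻¹ := by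
  have h3 : g * x * (g * x) = g * g := by
    rw [← pow_two, ← pow_two, h1, h2]
  have h4 : x * g * x = g := by
    have : g * (x * g * x) = g * g := by rw [← h3]; group
    exact mul_left_cancel this
  have h5 : x * g = g * x⁻¹ := by
    rw [eq_mul_inv_iff_mul_eq]; exact h4
  rw [mul_assoc, h5]; group

theorem count_inv [Finite G] (h x : G) (X : Set G) (hX : ∀ g ∈ X, g * x ∈ X) :
    X.ncard ≤ {g ∈ X | g⁻¹ * x * g = x⁻¹}.ncard + 2 * {g ∈ X | g ^ 2 ≠ h}.ncard := by
  have h1 : X ⊆ {g ∈ X | g⁻¹ * x * g = x⁻¹} ∪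
      ({g ∈ X | g ^ 2 ≠ h} ∪ {g ∈ X | g * x ∈ {g ∈ X | g ^ 2 ≠ h}}) := by
    intro g hg
    by_cases h1 : g ^ 2 = h
    · by_cases h2 : (g * x) ^ 2 = h
      · exact Or.inl ⟨hg, inv_of_sq h1 h2⟩
      · exact Or.inr (Or.inr ⟨hg, hX g hg, h2⟩)
    · exact Or.inr (Or.inl ⟨hg, h1⟩)
  have h2 := Set.ncard_le_ncard h1 (Set.toFinite _)
  have h3 := Set.ncard_union_le {g ∈ X | g⁻¹ * x * g = x⁻¹}
      ({g ∈ X | g ^ 2 ≠ h} ∪ {g ∈ X | g * x ∈ {g ∈ X | g ^ 2 ≠ h}})
  have h4 := Set.ncard_union_le {g ∈ X | g ^ 2 ≠ h} {g ∈ X | g * x ∈ {g ∈ X | g ^ 2 ≠ h}}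
  have h5 : {g ∈ X | g * x ∈ {g ∈ X | g ^ 2 ≠ h}}.ncard ≤ {g ∈ X | g ^ 2 ≠ h}.ncard := by
    apply Set.ncard_le_ncard_of_injOn (fun g => g * x)
    · intro g hg
      exact hg.2
    · intro a _ b _ hab
      exact mul_right_cancel hab
  omega

end H27.VM

namespace H34.VM

open H27.VM

theorem t_E3 : S_central := by
  intro G _ _ h hn h1 h2 hcen hK
  set A : Set G := {g | g ^ 2 ≠ h} with hA
  -- (Y)
  have hY : Nat.card G ≤ 4 * A.ncard := by
    by_contra hlt
    have h3 : ∀ x : G, x ^ 2 = 1 := by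
      intro x
      have h4 := count_inv h x (Set.univ : Set G) (fun _ _ => Set.mem_univ _)
      have h5 : {g ∈ (Set.univ : Set G) | g ^ 2 ≠ h} = A := by
        ext g; simp [hA]
      rw [h5, Set.ncard_univ] at h4
      refine (central_of_inv x {g ∈ (Set.univ : Set G) | g⁻¹ * x * g = x⁻¹} (fun g hg => hg.2) ?_).2
      omega
    have h6 : A = Set.univ := by
      ext g
      simp only [hA, Set.mem_ofPred_eq, Set.mem_univ, iff_true, h3]
      exact fun h => h1 h.symm
    rw [h6, Set.ncard_univ] at hlt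
    omega
  have hKA : ∀ K : Subgroup G, A ⊆ K ∨ Nat.card G ≤ 12 * (A \ K).ncard := by
    intro K
    by_contra hcon
    push Not at hcon
    obtain ⟨hAK, hlt⟩ := hcon
    obtain ⟨g₀, hg₀, hg₀K⟩ := Set.not_subset.mp hAK
    have hKt : K ≠ ⊤ := by
      intro hT
      apply hg₀K
      rw [hT]
      trivial
    have hX : ∀ x ∈ K, ∀ g ∈ (K : Set G)ᶜ, g * x ∈ (K : Set G)ᶜ := by
      intro x hx g hg hgx
      apply hg
      have := K.mul_mem hgx (K.inv_mem hx)
      simpa using this
    have hAX : {g ∈ (K : Set G)ᶜ | g ^ 2 ≠ h} = A \ K := by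
      ext g
      simp only [hA, Set.mem_ofPred_eq, Set.mem_compl_iff, Set.mem_sdiff]
      tauto
    have hcc : (K : Set G)ᶜ.ncard + Nat.card K = Nat.card G := by
      have := Set.ncard_add_ncard_compl (K : Set G)
      rw [ncard_subgroup] at this
      omega
    have key : ∀ x ∈ K, (K : Set G)ᶜ.ncard ≤
        {g ∈ (K : Set G)ᶜ | g⁻¹ * x * g = x⁻¹}.ncard + 2 * (A \ K).ncard := by
      intro x hx
      have := count_inv h x (K : Set G)ᶜ (hX x hx)
      rwa [hAX] at this
    have hidx := K.card_mul_index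
    have hidx1 : K.index ≠ 1 := fun h3 => hKt (Subgroup.index_eq_one.mp h3)
    have hidx0 : K.index ≠ 0 := K.index_ne_zero_of_finite
    by_cases hi2 : K.index = 2
    · -- index two
      rw [hi2] at hidx
      have hhalf : 2 * (K : Set G)ᶜ.ncard = Nat.card G := by omega
      -- for `x` in `K` fewer than `n/6` elements outside do not invert `x`
      have hbad : ∀ x ∈ K, 6 * {g ∈ (K : Set G)ᶜ | g⁻¹ * x * g ≠ x⁻¹}.ncard < Nat.card G := by
        intro x hx
        have h3 := key x hx
        have h4 : {g ∈ (K : Set G)ᶜ | g⁻¹ * x * g = x⁻¹}.ncard +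
            {g ∈ (K : Set G)ᶜ | g⁻¹ * x * g ≠ x⁻¹}.ncard = (K : Set G)ᶜ.ncard := by
          rw [← Set.ncard_union_eq]
          · congr 1
            ext g
            simp only [Set.mem_union, Set.mem_ofPred_eq]
            tauto
          · rw [Set.disjoint_left]
            rintro g ⟨_, hg1⟩ ⟨_, hg2⟩
            exact hg2 hg1
        omega
      have hall : ∀ x ∈ K, ∀ y ∈ K, ∃ g ∈ (K : Set G)ᶜ, g⁻¹ * x * g = x⁻¹ ∧ g⁻¹ * y * g = y⁻¹ ∧
          g⁻¹ * (x * y) * g = (x * y)⁻¹ := by
        intro x hx y hy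
        by_contra hno
        push Not at hno
        have h3 : (K : Set G)ᶜ ⊆ {g ∈ (K : Set G)ᶜ | g⁻¹ * x * g ≠ x⁻¹} ∪
            ({g ∈ (K : Set G)ᶜ | g⁻¹ * y * g ≠ y⁻¹} ∪
              {g ∈ (K : Set G)ᶜ | g⁻¹ * (x * y) * g ≠ (x * y)⁻¹}) := by
          intro g hg
          by_cases e1 : g⁻¹ * x * g = x⁻¹
          · by_cases e2 : g⁻¹ * y * g = y⁻¹
            · exact Or.inr (Or.inr ⟨hg, hno g hg e1 e2⟩)
            · exact Or.inr (Or.inl ⟨hg, e2⟩)
          · exact Or.inl ⟨hg, e1⟩
        have h4 := Set.ncard_le_ncard h3 (Set.toFinite _)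
        have h5 := Set.ncard_union_le {g ∈ (K : Set G)ᶜ | g⁻¹ * x * g ≠ x⁻¹}
          ({g ∈ (K : Set G)ᶜ | g⁻¹ * y * g ≠ y⁻¹} ∪
              {g ∈ (K : Set G)ᶜ | g⁻¹ * (x * y) * g ≠ (x * y)⁻¹})
        have h6 := Set.ncard_union_le {g ∈ (K : Set G)ᶜ | g⁻¹ * y * g ≠ y⁻¹}
              {g ∈ (K : Set G)ᶜ | g⁻¹ * (x * y) * g ≠ (x * y)⁻¹}
        have h7 := hbad x hx
        have h8 := hbad y hy
        have h9 := hbad (x * y) (K.mul_mem hx hy)
        omega
      have hab : ∀ x ∈ K, ∀ y ∈ K, x * y = y * x := by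
        intro x hx y hy
        obtain ⟨g, _, e1, e2, e3⟩ := hall x hx y hy
        have e4 : g⁻¹ * (x * y) * g = (g⁻¹ * x * g) * (g⁻¹ * y * g) := by group
        rw [e3, e1, e2, ← mul_inv_rev] at e4
        have := inv_injective e4
        exact this
      have hinv : ∀ g ∉ K, ∀ x ∈ K, g⁻¹ * x * g = x⁻¹ := by
        intro g hg x hx
        obtain ⟨g', hg', e1, _, _⟩ := hall x hx x hx
        have hk : g'⁻¹ * g ∈ K := by
          rw [Subgroup.mul_mem_iff_of_index_two hi2, K.inv_mem_iff]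
          exact iff_of_false hg' hg
        set c := g'⁻¹ * g with hc
        have hgc : g = g' * c := by rw [hc]; group
        rw [hgc]
        calc (g' * c)⁻¹ * x * (g' * c) = c⁻¹ * (g'⁻¹ * x * g') * c := by group
          _ = c⁻¹ * x⁻¹ * c := by rw [e1]
          _ = c⁻¹ * (x⁻¹ * c) := by group
          _ = c⁻¹ * (c * x⁻¹) := by rw [hab x⁻¹ (K.inv_mem hx) c hk]
          _ = x⁻¹ := by group
      -- some element outside `K` has square `h`
      have hex : ∃ g₁, g₁ ∉ K ∧ g₁ ^ 2 = h := by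
        by_contra hno
        push Not at hno
        have : A \ K = (K : Set G)ᶜ := by
          ext g
          simp only [hA, Set.mem_ofPred_eq, Set.mem_compl_iff, Set.mem_sdiff]
          constructor
          · exact fun h => h.2
          · exact fun h => ⟨hno g h, h⟩
        rw [this] at hlt
        omega
      obtain ⟨g₁, hg₁, e1⟩ := hex
      apply hg₀
      have hk : g₁⁻¹ * g₀ ∈ K := by
        rw [Subgroup.mul_mem_iff_of_index_two hi2, K.inv_mem_iff]
        exact iff_of_false hg₁ hg₀K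
      set c := g₁⁻¹ * g₀ with hc
      have hgc : g₀ = g₁ * c := by rw [hc]; group
      have e2 := hinv g₁ hg₁ c hk
      rw [hgc]
      calc (g₁ * c) ^ 2 = g₁ ^ 2 * (g₁⁻¹ * c * g₁) * c := by rw [pow_two, pow_two]; group
        _ = h := by rw [e2, e1]; group
    · -- index at least three
      have hi3 : 3 ≤ K.index := by omega
      have hK3 : 3 * Nat.card K ≤ Nat.card G := by
        rw [← hidx]; nlinarith
      have hc2 : ∀ x ∈ K, (∀ g : G, g * x = x * g) ∧ x ^ 2 = 1 := by
        intro x hx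
        have := key x hx
        apply central_of_inv x {g ∈ (K : Set G)ᶜ | g⁻¹ * x * g = x⁻¹} (fun g hg => hg.2)
        omega
      have h5 : Nat.card K ≤ (A \ K).ncard := by
        rw [← ncard_subgroup]
        apply Set.ncard_le_ncard_of_injOn (fun k => g₀ * k)
        · intro k hk
          refine ⟨?_, ?_⟩
          · change (g₀ * k) ^ 2 ≠ h
            have e1 : (g₀ * k) ^ 2 = g₀ ^ 2 := by
              have e2 := (hc2 k hk).1 g₀
              have e3 := (hc2 k hk).2
              calc (g₀ * k) ^ 2 = g₀ * (k * g₀) * k := by rw [pow_two]; group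
                _ = g₀ * (g₀ * k) * k := by rw [e2]
                _ = g₀ ^ 2 * k ^ 2 := by rw [pow_two, pow_two]; group
                _ = _ := by rw [e3, mul_one]
            rw [e1]
            exact hg₀
          · intro hk2
            apply hg₀K
            have := K.mul_mem hk2 (K.inv_mem hk)
            simpa using this
        · intro a _ b _ hab
          exact mul_left_cancel hab
      have h6 : A.ncard ≤ (A \ K).ncard + Nat.card K := by
        have h7 : A ⊆ (A \ K) ∪ K := by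
          intro g hg
          by_cases hgK : g ∈ K
          · exact Or.inr hgK
          · exact Or.inl ⟨hg, hgK⟩
        have h8 := Set.ncard_le_ncard h7 (Set.toFinite _)
        have h9 := Set.ncard_union_le (A \ K) K
        rw [ncard_subgroup] at h9
        omega
      omega
  have hord : orderOf h = 2 := by
    apply orderOf_eq_prime h2 h1
  refine ⟨Subgroup.zpowers h, ?_, ?_, A, ?_, ?_, ?_, hKA⟩
  · rw [Nat.card_zpowers, hord]
    exact Nat.prime_two
  · rw [Nat.card_zpowers, hord]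
    omega
  · intro u hu
    by_cases hu2 : u ^ 2 ∈ Subgroup.zpowers h
    · left
      rw [Subgroup.mem_zpowers_iff] at hu2
      obtain ⟨m, hm⟩ := hu2
      rcases Int.even_or_odd m with ⟨r, hr⟩ | ⟨r, hr⟩
      · rw [← hm, hr, ← two_mul, zpow_mul]
        have : h ^ (2 : ℤ) = 1 := by exact_mod_cast h2
        rw [this, one_zpow]
      · exfalso
        apply hu
        rw [← hm, hr, zpow_add, zpow_mul]
        have : h ^ (2 : ℤ) = 1 := by exact_mod_cast h2
        rw [this, one_zpow, one_mul, zpow_one]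
    · exact Or.inr hu2
  · by_contra hT
    obtain ⟨g, hg, hg2⟩ := hK _ hT
    exact hg (Subgroup.subset_closure hg2)
  · omega

end H34.VM
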