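import Pool.Agent.H27.VM.E3

set_option autoImplicit false

open Set

namespace H27.VM

variable {G : Type} [Group G]

omit [Group G] in
theorem exists_notMem_finset [Finite G] (F : Finset G) (h : F.card < Nat.card G) : ∃ g, g ∉ F := by
  classical
  by_contra hno
  push Not at hno
  have := Fintype.ofFinite G
  have h1 : (Finset.univ : Finset G) ⊆ F := fun g _ => hno g
  have h2 := Finset.card_le_card h1
  rw [Finset.card_univ, ← Nat.card_eq_fintype_card] at h2
  omega

/-- `K` is abelian and inverted by the elements outside. -/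
theorem inv_abelian {z : G} {K : Subgroup G} (hKt : K ≠ ⊤) (hK : ∀ g ∉ K, g ^ 2 = z) :
    (∀ g ∉ K, ∀ x ∈ K, g⁻¹ * x * g = x⁻¹) ∧ ∀ x ∈ K, ∀ y ∈ K, x * y = y * x := by
  have h1 : ∀ g ∉ K, ∀ x ∈ K, g⁻¹ * x * g = x⁻¹ := by
    intro g hg x hx
    apply inv_of_sq (hK g hg) (hK _ _)
    intro hgx
    apply hg
    have := K.mul_mem hgx (K.inv_mem hx)
    simpa using this
  refine ⟨h1, fun x hx y hy => ?_⟩
  obtain ⟨g, hg⟩ : ∃ g, g ∉ K := by
    by_contra hno
    push Not at hno
    exact hKt ((Subgroup.eq_top_iff' K).mpr hno)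
  have e4 : g⁻¹ * (x * y) * g = (g⁻¹ * x * g) * (g⁻¹ * y * g) := by group
  rw [h1 g hg _ (K.mul_mem hx hy), h1 g hg x hx, h1 g hg y hy, ← mul_inv_rev] at e4
  exact inv_injective e4

end H27.VM

namespace H34.VM

open H27.VM

theorem t_E4 (hU : S_union) : S_dic := by
  intro G _ _ hn heven hcen hK
  classical
  -- the involution
  obtain ⟨z, hz⟩ : ∃ z : G, orderOf z = 2 := by
    have := Fact.mk Nat.prime_two
    exact exists_prime_orderOf_dvd_card' 2 heven.two_dvd
  have hz1 : z ≠ 1 := by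
    rintro rfl
    simp at hz
  have hz2 : z ^ 2 = 1 := by rw [← hz]; exact pow_orderOf_eq_one z
  have hzc : ∀ g : G, g * z = z * g := hcen z hz1 hz2
  obtain ⟨K, hKt, hKs⟩ := hK z hz1 hz2
  have huniq : ∀ g : G, g ≠ 1 → g ^ 2 = 1 → g = z := by
    intro g hg1 hg2
    obtain ⟨K', hKt', hKs'⟩ := hK g hg1 hg2
    have h1 := hU G K K' hKt hKt'
    have h2 : {g : G | g ∉ K ∧ g ∉ K'}.Nonempty := by
      rw [← Set.ncard_pos]
      omega
    obtain ⟨x, hx1, hx2⟩ := h2
    rw [← hKs x hx1, hKs' x hx2]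
  obtain ⟨hinv, hab⟩ := inv_abelian hKt hKs
  have hzz : z * z = 1 := by rw [← pow_two]; exact hz2
  have hzK : z ∈ K := by
    by_contra h
    have := hKs z h
    rw [hz2] at this
    exact hz1 this.symm
  refine ⟨z, K, hz1, hz2, hzc, huniq, ?_, hKs, hab⟩
  by_contra hi2
  have hidx := K.card_mul_index
  have hidx1 : K.index ≠ 1 := fun h3 => hKt (Subgroup.index_eq_one.mp h3)
  have hidx0 : K.index ≠ 0 := K.index_ne_zero_of_finite
  have hi3 : 3 ≤ K.index := by omega
  have hK3 : 3 * Nat.card K ≤ Nat.card G := by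
    rw [← hidx]; nlinarith
  have hKpos : 0 < Nat.card K := Nat.card_pos
  obtain ⟨g, hg⟩ : ∃ g, g ∉ K := by
    by_contra hno
    push Not at hno
    exact hKt ((Subgroup.eq_top_iff' K).mpr hno)
  obtain ⟨g', hg', hgg⟩ : ∃ g', g' ∉ K ∧ g * g' ∉ K := by
    by_contra hno
    push Not at hno
    have h1 : (Set.univ : Set G) ⊆ (K : Set G) ∪ {g' | g * g' ∈ K} := by
      intro x _
      by_cases hx : x ∈ K
      · exact Or.inl hx
      · exact Or.inr (hno x hx)
    have h2 := Set.ncard_le_ncard h1 (Set.toFinite _)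
    have h3 := Set.ncard_union_le (K : Set G) {g' | g * g' ∈ K}
    have h4 : {g' | g * g' ∈ K}.ncard ≤ (K : Set G).ncard := by
      apply Set.ncard_le_ncard_of_injOn (fun x => g * x)
      · intro x hx
        exact hx
      · intro a _ b _ hab
        exact mul_left_cancel hab
    rw [Set.ncard_univ] at h2
    rw [ncard_subgroup] at h3 h4
    omega
  -- `K` has exponent two
  have hexp : ∀ x ∈ K, x = 1 ∨ x = z := by
    intro x hx
    have e1 : (g * g')⁻¹ * x * (g * g') = g'⁻¹ * (g⁻¹ * x * g) * g' := by group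
    rw [hinv _ hgg x hx, hinv g hg x hx, hinv g' hg' _ (K.inv_mem hx), inv_inv] at e1
    by_cases hx1 : x = 1
    · exact Or.inl hx1
    · right
      apply huniq x hx1
      rw [pow_two]
      nth_rw 1 [← e1]
      simp
  have hKiff : ∀ x : G, x ∉ ({1, z} : Finset G) → x ∉ K := by
    intro x hx hxK
    rcases hexp x hxK with h | h <;> simp [h] at hx
  have hsq : ∀ x : G, x ∉ ({1, z} : Finset G) → x * x = z := by
    intro x hx
    rw [← pow_two]
    exact hKs x (hKiff x hx)
  have hinvz : ∀ x : G, x ∉ ({1, z} : Finset G) → x⁻¹ = z * x := by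
    intro x hx
    rw [inv_eq_iff_mul_eq_one, ← mul_assoc, hzc x, mul_assoc, hsq x hx, hzz]
  -- anticommutation
  have anti : ∀ x y : G, x ∉ ({1, z} : Finset G) → y ∉ ({1, z} : Finset G) →
      x * y ∉ ({1, z} : Finset G) → x * y = z * (y * x) := by
    intro x y hx hy hxy
    have e1 := hinvz _ hxy
    rw [mul_inv_rev, hinvz x hx, hinvz y hy] at e1
    have e2 : z * y * (z * x) = y * x := by
      rw [← hzc y, mul_assoc, ← mul_assoc z z x, hzz, one_mul]
    rw [e2] at e1
    rw [e1, ← mul_assoc, hzz, one_mul]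
  obtain ⟨a, ha⟩ := exists_notMem_finset ({1, z} : Finset G)
    (lt_of_le_of_lt (Finset.card_le_two) (by omega))
  obtain ⟨b', hb'⟩ := exists_notMem_finset ({1, z, a⁻¹, a⁻¹ * z} : Finset G)
    (lt_of_le_of_lt (Finset.card_le_four) (by omega))
  obtain ⟨c, hc⟩ := exists_notMem_finset
    (({1, z, a⁻¹, a⁻¹ * z} : Finset G) ∪ {b'⁻¹, b'⁻¹ * z, (a * b')⁻¹, (a * b')⁻¹ * z})
    (lt_of_le_of_lt ((Finset.card_union_le _ _).trans
      (Nat.add_le_add Finset.card_le_four Finset.card_le_four)) (by omega))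
  simp only [Finset.mem_union, Finset.mem_insert, Finset.mem_singleton, not_or] at ha hb' hc
  obtain ⟨⟨c1, c2, c3, c4⟩, c5, c6, c7, c8⟩ := hc
  obtain ⟨b1, b2, b3, b4⟩ := hb'
  have nm : ∀ x y : G, x ≠ y⁻¹ → x ≠ y⁻¹ * z → y * x ∉ ({1, z} : Finset G) := by
    intro x y h1 h2
    simp only [Finset.mem_insert, Finset.mem_singleton, not_or]
    refine ⟨fun h => h1 ?_, fun h => h2 ?_⟩
    · rw [eq_inv_iff_mul_eq_one]
      have : x = y⁻¹ * (y * x) := by group
      rw [this, h]; group
    · rw [← h]; group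
  have ha' : a ∉ ({1, z} : Finset G) := by simpa using ha
  have hb'' : b' ∉ ({1, z} : Finset G) := by simp [b1, b2]
  have hc' : c ∉ ({1, z} : Finset G) := by simp [c1, c2]
  have hab' : a * b' ∉ ({1, z} : Finset G) := nm b' a b3 b4
  have hac : a * c ∉ ({1, z} : Finset G) := nm c a c3 c4
  have hbc : b' * c ∉ ({1, z} : Finset G) := nm c b' c5 c6
  have habc : a * b' * c ∉ ({1, z} : Finset G) := nm c (a * b') c7 c8
  have e1 := anti a c ha' hc' hac
  have e2 := anti b' c hb'' hc' hbc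
  have e3 := anti (a * b') c hab' hc' habc
  have e4 : a * b' * c = c * (a * b') := by
    calc a * b' * c = a * (b' * c) := by group
      _ = a * (z * (c * b')) := by rw [e2]
      _ = z * (a * c) * b' := by
          rw [← mul_assoc a z, hzc a]; group
      _ = z * (z * (c * a)) * b' := by rw [e1]
      _ = c * (a * b') := by
          rw [← mul_assoc z z, hzz, one_mul, mul_assoc]
  rw [e4] at e3
  apply hz1
  have : z * (c * (a * b')) = 1 * (c * (a * b')) := by rw [one_mul, ← e3]
  exact mul_right_cancel this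

end H34.VM
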