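import Pool.Agent.H27.VM.E3

set_option autoImplicit false

open Set

namespace H34.VM

open H27.VM

theorem t_U : S_union := by
  intro G _ _ H K hH hK
  have h1 := two_card_le hH
  have h2 := two_card_le hK
  have e1 := H.card_mul_index
  have e2 := K.card_mul_index
  have e3 := (H ⊓ K).card_mul_index
  have e4 : (H ⊓ K).index ≤ H.index * K.index := Subgroup.index_inf_le
  have p : 0 < (H ⊓ K).index := Nat.pos_of_ne_zero (H ⊓ K).index_ne_zero_of_finite
  have h3 : Nat.card H * Nat.card K ≤ Nat.card (H ⊓ K : Subgroup G) * Nat.card G := by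
    apply Nat.le_of_mul_le_mul_right _ p
    calc Nat.card H * Nat.card K * (H ⊓ K).index
        ≤ Nat.card H * Nat.card K * (H.index * K.index) := Nat.mul_le_mul_left _ e4
      _ = (Nat.card H * H.index) * (Nat.card K * K.index) := by ring
      _ = Nat.card (H ⊓ K : Subgroup G) * (H ⊓ K).index * Nat.card G := by rw [e1, e2, e3]
      _ = _ := by ring
  have e5 := Set.ncard_union_add_ncard_inter (H : Set G) (K : Set G)
  have e6 := Set.ncard_add_ncard_compl ((H : Set G) ∪ K)
  rw [← Subgroup.coe_inf, ncard_subgroup, ncard_subgroup, ncard_subgroup] at e5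
  have e7 : ((H : Set G) ∪ K)ᶜ = {g : G | g ∉ H ∧ g ∉ K} := by
    ext g
    simp
  rw [e7] at e6
  have hn : 0 < Nat.card G := Nat.card_pos
  zify at *
  nlinarith

end H34.VM
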